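import Pool.Agent.V5helper71.QB.Stm3

set_option autoImplicit false

/-!
# Project QB, job NUL: null sets by disjoint images
-/

namespace Pool.Agent.V5helper7.QB

open MeasureTheory Set Pool.Agent.V5helper71.QB

theorem nul {α : Type} [NormedAddCommGroup α] [NormedSpace ℝ α] [FiniteDimensional ℝ α]
    [MeasurableSpace α] [BorelSpace α] (μ : Measure α) [μ.IsAddHaarMeasure]
    (T : ℝ → α → α) (U E : Set α)
    (hEU : E ⊆ U) (hE : MeasurableSet E)
    (hd : ∀ r, 0 < r → DifferentiableOn ℝ (T r) U)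
    (hg : ∀ r s p, 0 < r → 0 < s → p ∈ U → T r p ∈ U → T s (T r p) = T (s * r) p)
    (h1 : ∀ p ∈ U, T 1 p = p) (hU : ∀ p ∈ U, ∀ r, 0 < r → r ≤ 1 → T r p ∈ U)
    (hm : ∀ p ∈ E, ∀ r, 0 < r → r ≠ 1 → T r p ∉ E) : μ E = 0 := by
  by_contra hpos
  have : PolishSpace α := by
    have := FiniteDimensional.proper ℝ α
    infer_instance
  -- inverse
  have hinv : ∀ p ∈ U, ∀ r, 0 < r → r ≤ 1 → T r⁻¹ (T r p) = p := by
    intro p hp r hr hr1
    rw [hg r r⁻¹ p hr (inv_pos.2 hr) hp (hU p hp r hr hr1), inv_mul_cancel₀ hr.ne', h1 p hp]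
  let ι := Ioo (1 / 2 : ℝ) 1
  let As : ι → Set α := fun r => T r '' E
  have hr0 : ∀ r : ι, (0 : ℝ) < r := fun r => lt_trans (by norm_num) r.2.1
  have hr1 : ∀ r : ι, (r : ℝ) ≤ 1 := fun r => r.2.2.le
  have hmeas : ∀ r, MeasurableSet (As r) := by
    intro r
    apply hE.image_of_continuousOn_injOn ((hd r (hr0 r)).continuousOn.mono hEU)
    intro p hp p' hp' hpp
    rw [← hinv p (hEU hp) r (hr0 r) (hr1 r), ← hinv p' (hEU hp') r (hr0 r) (hr1 r), hpp]
  have hdisj : Pairwise (Function.onFun Disjoint As) := by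
    intro r s hrs
    rw [Function.onFun, Set.disjoint_left]
    rintro _ ⟨p, hp, rfl⟩ ⟨p', hp', hpp⟩
    have e1 := hinv p' (hEU hp') s (hr0 s) (hr1 s)
    rw [hpp, hg r (s : ℝ)⁻¹ p (hr0 r) (inv_pos.2 (hr0 s)) (hEU hp)
      (hU p (hEU hp) r (hr0 r) (hr1 r))] at e1
    apply hm p hp ((s : ℝ)⁻¹ * r) (mul_pos (inv_pos.2 (hr0 s)) (hr0 r)) ?_
    · rw [e1]
      exact hp'
    · intro h2
      apply hrs
      apply Subtype.ext
      rw [inv_mul_eq_one₀ (hr0 s).ne'] at h2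
      exact h2.symm
  have hposr : ∀ r, 0 < μ (As r) := by
    intro r
    rw [pos_iff_ne_zero]
    intro h0
    apply hpos
    have h2 : E = T (r : ℝ)⁻¹ '' (As r) := by
      ext p
      constructor
      · intro hp
        exact ⟨T r p, ⟨p, hp, rfl⟩, hinv p (hEU hp) r (hr0 r) (hr1 r)⟩
      · rintro ⟨_, ⟨p', hp', rfl⟩, hpp⟩
        rw [hinv p' (hEU hp') r (hr0 r) (hr1 r)] at hpp
        rw [← hpp]
        exact hp'
    rw [h2]
    apply addHaar_image_eq_zero_of_differentiableOn_of_addHaar_eq_zero μ _ h0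
    apply (hd (r : ℝ)⁻¹ (inv_pos.2 (hr0 r))).mono
    rintro _ ⟨p, hp, rfl⟩
    exact hU p (hEU hp) r (hr0 r) (hr1 r)
  have hc := Measure.countable_meas_pos_of_disjoint_iUnion (μ := μ) hmeas hdisj
  have hall : {r : ι | 0 < μ (As r)} = Set.univ := Set.eq_univ_of_forall hposr
  rw [hall, Set.countable_univ_iff] at hc
  have h3 : (Ioo (1 / 2 : ℝ) 1).Countable := hc.to_set
  have h4 := h3.measure_zero volume
  rw [Real.volume_Ioo] at h4
  norm_num at h4

theorem t_NUL : S_NUL := by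
  intro n T U E _ hEU hE hd hg h1 hU hm
  exact nul volume T U E hEU hE hd hg h1 hU hm

end Pool.Agent.V5helper7.QB
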